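import Pool.Agent.Lib.helper3.FreudC

set_option autoImplicit false

namespace Pool.Agent.Results.MP_d042fc_an.Uniqueness

open MeasureTheory

/-- The moments `μ_k = ∫ x^k exp(-x^6 + τ x^4 + t x^2) dx` of the symmetric sextic Freud weight. -/
noncomputable def mu (τ t : ℝ) (k : ℕ) : ℝ :=
  ∫ x : ℝ, x ^ k * Real.exp (-x ^ 6 + τ * x ^ 4 + t * x ^ 2)

/-- A positive solution of (E): `b 0 = 0`, `b n > 0` and (E) holds for all `n ≥ 1`.
(For `n = 1` the truncated index `n - 2` is `0`, and `b 0 = 0` plays the role of `b (-1) = 0`.) -/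
def IsPosSol (τ t : ℝ) (b : ℕ → ℝ) : Prop :=
  b 0 = 0 ∧ (∀ n, 1 ≤ n → 0 < b n) ∧
    ∀ n, 1 ≤ n → 6 * b n * (b (n - 2) * b (n - 1) + b (n - 1) ^ 2 + 2 * b (n - 1) * b n
      + b (n - 1) * b (n + 1) + b n ^ 2 + 2 * b n * b (n + 1) + b (n + 1) ^ 2
      + b (n + 1) * b (n + 2)) - 4 * τ * b n * (b (n - 1) + b n + b (n + 1)) - 2 * t * b n = n

open Pool.Agent.Lib.H3Freud

lemma init (τ t : ℝ) (b : ℕ → ℝ) (hb : IsPosSol τ t b) :
    b 1 = mu τ t 2 / mu τ t 0 ∧ b 2 = mu τ t 4 / mu τ t 2 - mu τ t 2 / mu τ t 0 := by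
  obtain ⟨m, hm, h2, h4⟩ := exists_mom τ t b hb.1 hb.2.1 hb.2.2
  have e (k : ℕ) : m k * mu τ t 0 = mu τ t k := by
    simpa only [mu, wt, pow_zero, one_mul] using mom_eq hm k
  have h0 : 0 < mu τ t 0 := by
    have := wt_int (τ := τ) (t := t) 0
    simp only [pow_zero, one_mul] at this
    simpa only [mu, wt, pow_zero, one_mul] using integral_exp_pos this
  have hb1 := hb.2.1 1 le_rfl
  rw [← e 2, ← e 4, h2, h4]
  constructor <;> field_simp
  ring

theorem result (τ t : ℝ) :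
    (∀ b : ℕ → ℝ, IsPosSol τ t b →
      b 1 = mu τ t 2 / mu τ t 0 ∧ b 2 = mu τ t 4 / mu τ t 2 - mu τ t 2 / mu τ t 0) ∧
    ∀ b c : ℕ → ℝ, IsPosSol τ t b → IsPosSol τ t c → b = c := by
  refine ⟨init τ t, fun b c hb hc => funext fun n => ?_⟩
  induction n using Nat.strong_induction_on with
  | _ n ih =>
    match n, ih with
    | 0, _ => rw [hb.1, hc.1]
    | 1, _ => rw [(init τ t b hb).1, (init τ t c hc).1]
    | 2, _ => rw [(init τ t b hb).2, (init τ t c hc).2]
    | n + 3, ih =>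
      have e1 := hb.2.2 (n + 1) (by omega)
      have e2 := hc.2.2 (n + 1) (by omega)
      rw [ih (n + 1 - 2) (by omega), ih (n + 1 - 1) (by omega), ih (n + 1) (by omega),
        ih (n + 1 + 1) (by omega), ← e2] at e1
      have p1 := hc.2.1 (n + 1) (by omega)
      have p2 := hc.2.1 (n + 1 + 1) (by omega)
      have : 6 * c (n + 1) * c (n + 1 + 1) * (b (n + 1 + 2) - c (n + 1 + 2)) = 0 := by
        linear_combination e1
      exact sub_eq_zero.1 ((mul_eq_zero.1 this).resolve_left (by positivity))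

end Pool.Agent.Results.MP_d042fc_an.Uniqueness
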